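import Pool.Agent.H293.EX.Stm3
import Pool.Graph.R_pool_sql_team_seeded_3997aac3.Q14.LQ.LA2

set_option autoImplicit false

/-! Project EX, task LG2: Landau's theorem, abstract form, with `H` differentiable in the right half plane
(helper903's proof of `S_LG`, `Pool/Agent/H903/EX/LG.lean`, with minor changes by helper80). -/

namespace Pool.Agent.H80.EX

open MeasureTheory Complex Filter Topology Set ProbabilityTheory
open Pool.Agent.Q14.LQ Pool.Agent.Q253.LQ
open Pool.Agent.H293.EX (S_LG2)

/-- **LG2.** Landau's theorem, abstract form -/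
theorem t_LG2 : S_LG2 := by
  intro f hf hp hm E H D hE hH hD hE0 hDne hDre heq
  set fp : ℝ → ℝ := fun u => max (f u) 0 with hfp
  set fm : ℝ → ℝ := fun u => max (-f u) 0 with hfm
  have cp : Continuous fp := hf.max continuous_const
  have cm : Continuous fm := hf.neg.max continuous_const
  have p0 : ∀ u, 0 ≤ fp u := fun u => le_max_right _ _
  have m0 : ∀ u, 0 ≤ fm u := fun u => le_max_right _ _
  have ap : ∀ u, |fp u| = fp u := fun u => abs_of_nonneg (p0 u)
  have am : ∀ u, |fm u| = fm u := fun u => abs_of_nonneg (m0 u)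
  have hsub : ∀ u, f u = fp u - fm u := by
    intro u
    simp only [hfp, hfm]
    rcases le_total 0 (f u) with h | h
    · rw [max_eq_left h, max_eq_right (by linarith)]
      ring
    · rw [max_eq_right h, max_eq_left (by linarith)]
      ring
  have hpa : ∀ σ : ℝ, 0 < σ → IntegrableOn (fun u => |fp u| * Real.exp (-(σ * u))) (Ioi 0) := by
    intro σ hσ
    simp_rw [ap]
    exact hp σ hσ
  -- the identity in a half plane where the second transform converges
  have step : ∀ a : ℝ, 0 ≤ a → (∀ σ : ℝ, a < σ → IntegrableOn (fun u => fm u * Real.exp (-(σ * u))) (Ioi 0)) →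
      ∀ z : ℂ, a < z.re → D z * (lp fp z - lp fm z) * E z = 2 * deriv E z - H z * E z := by
    intro a ha hma z hz
    have hma' : ∀ σ : ℝ, a < σ → IntegrableOn (fun u => |fm u| * Real.exp (-(σ * u))) (Ioi 0) := by
      intro σ hσ
      simp_rw [am]
      exact hma σ hσ
    have hopen : IsOpen {z : ℂ | a < z.re} := isOpen_lt continuous_const Complex.continuous_re
    have hconn : IsPreconnected {z : ℂ | a < z.re} := (convex_halfSpace_re_gt a).isPreconnected
    have hA1 : AnalyticOnNhd ℂ (fun z => D z * (lp fp z - lp fm z) * E z) {z : ℂ | a < z.re} := by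
      refine DifferentiableOn.analyticOnNhd (fun z hz => DifferentiableAt.differentiableWithinAt ?_) hopen
      have hz' : a < z.re := hz
      have d1 := lp_diff cp hpa (z := z) (by linarith)
      have d2 := lp_diff cm hma' hz'
      exact ((hD z).mul (d1.sub d2)).mul (hE z)
    have hA2 : AnalyticOnNhd ℂ (fun z => 2 * deriv E z - H z * E z) {z : ℂ | a < z.re} := by
      refine DifferentiableOn.analyticOnNhd (fun z hz => DifferentiableAt.differentiableWithinAt ?_) hopen
      have hz' : a < z.re := hz
      exact ((hE.deriv z).const_mul 2).sub ((hH z (lt_of_le_of_lt ha hz')).mul (hE z))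
    set w : ℂ := ((a + 2 : ℝ) : ℂ) with hw
    have hwre : w.re = a + 2 := by rw [hw, Complex.ofReal_re]
    have h2 : w ∈ {z : ℂ | a < z.re} := by
      show a < w.re
      rw [hwre]
      linarith
    refine hA1.eqOn_of_preconnected_of_eventuallyEq hA2 hconn h2 ?_ hz
    have h3 : {z : ℂ | a + 1 < z.re} ∈ 𝓝 w :=
      (isOpen_lt continuous_const Complex.continuous_re).mem_nhds (by
        show a + 1 < w.re
        rw [hwre]
        linarith)
    filter_upwards [h3] with z hz
    have hz' : a + 1 < z.re := hz
    have h4 := heq z (by linarith)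
    rw [lp_sub cp cm hsub (hpa _ (by linarith)) (hma' _ (by linarith))] at h4
    exact h4
  have nz : ∀ a : ℝ, 0 ≤ a → (∀ σ : ℝ, a < σ → IntegrableOn (fun u => fm u * Real.exp (-(σ * u))) (Ioi 0)) →
      ∀ z : ℂ, a < z.re → E z ≠ 0 := by
    intro a ha hma z hz
    have hma' : ∀ σ : ℝ, a < σ → IntegrableOn (fun u => |fm u| * Real.exp (-(σ * u))) (Ioi 0) := by
      intro σ hσ
      simp_rw [am]
      exact hma σ hσ
    have hopen : IsOpen {z : ℂ | a < z.re} := isOpen_lt continuous_const Complex.continuous_re
    have hA : AnalyticAt ℂ (fun z => (D z * (lp fp z - lp fm z) + H z) / 2) z := by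
      refine DifferentiableOn.analyticAt (s := {z : ℂ | a < z.re}) (fun z hz => ?_) (hopen.mem_nhds hz)
      have hz' : a < z.re := hz
      have d1 := lp_diff cp hpa (z := z) (by linarith)
      have d2 := lp_diff cm hma' hz'
      exact ((((hD z).mul (d1.sub d2)).add (hH z (lt_of_le_of_lt ha hz'))).div_const
        2).differentiableWithinAt
    refine ode_ne_zero hE hE0 hA ?_
    filter_upwards [hopen.mem_nhds hz] with w hw
    have h1 := step a ha hma w hw
    linear_combination (-1 / 2 : ℂ) * h1
  -- the second transform converges in the right half plane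
  have main : ∀ σ : ℝ, 0 < σ → IntegrableOn (fun u => fm u * Real.exp (-(σ * u))) (Ioi 0) := by
    by_contra hcon
    push Not at hcon
    obtain ⟨a, ha, hna⟩ := hcon
    set T : Set ℝ := {σ : ℝ | IntegrableOn (fun u => fm u * Real.exp (-(σ * u))) (Ioi 0)} with hT
    have hup : ∀ σ τ : ℝ, σ ≤ τ → σ ∈ T → τ ∈ T := fun σ τ hστ hσ => exp_mono_int cm m0 hστ hσ
    have hlb : ∀ σ ∈ T, a ≤ σ := by
      intro σ hσ
      by_contra hlt
      push Not at hlt
      exact hna (hup σ a hlt.le hσ)
    have hbdd : BddBelow T := ⟨a, hlb⟩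
    have hT1 : ∀ σ : ℝ, 1 / 2 < σ → σ ∈ T := fun σ hσ => hm σ hσ
    have hne : T.Nonempty := ⟨1, hT1 1 (by norm_num)⟩
    set s0 : ℝ := sInf T with hs0
    have h1 : a ≤ s0 := le_csInf hne hlb
    have h2 : s0 ≤ 1 / 2 := le_of_forall_pos_le_add fun ε hε => csInf_le hbdd (hT1 _ (by linarith))
    have hgt : ∀ σ : ℝ, s0 < σ → IntegrableOn (fun u => fm u * Real.exp (-(σ * u))) (Ioi 0) := by
      intro σ hσ
      obtain ⟨τ, hτ, hτσ⟩ := exists_lt_of_csInf_lt hne hσ
      exact hup τ σ hτσ.le hτ
    have hlt : ∀ σ : ℝ, σ < s0 → σ ∉ T := fun σ hσ hmem => absurd (csInf_le hbdd hmem) (not_le.2 hσ)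
    have hs0' : 0 < s0 := by linarith
    have hid := step s0 hs0'.le hgt
    have hnz := nz s0 hs0'.le hgt
    -- no zero at `s0`
    have hE1 : E s0 ≠ 0 := by
      -- bound of the real part of the logarithmic derivative
      set A : ℂ → ℂ := fun z => (D z * (lp fp z - lp fm z) + H z) / 2 with hAdef
      have hHc : ContinuousOn (fun t : ℝ => (H t).re) (Icc s0 (s0 + 1 / 4)) := by
        intro t ht
        have hH1 : ContinuousAt H (t : ℂ) := (hH t (by
          rw [Complex.ofReal_re]
          linarith [ht.1])).continuousAt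
        have hH2 : ContinuousAt (fun t : ℝ => H (t : ℂ)) t :=
          ContinuousAt.comp (f := fun t : ℝ => (t : ℂ)) (g := H) hH1
            Complex.continuous_ofReal.continuousAt
        exact (Complex.continuous_re.continuousAt.comp hH2).continuousWithinAt
      obtain ⟨K, hK⟩ := isCompact_Icc.exists_bound_of_continuousOn hHc
      have hDc : ContinuousOn (fun t : ℝ => (D t).re) (Icc s0 (s0 + 1 / 4)) :=
        (Complex.continuous_re.comp (hD.continuous.comp Complex.continuous_ofReal)).continuousOn
      obtain ⟨K', hK'⟩ := isCompact_Icc.exists_bound_of_continuousOn hDc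
      set B : ℝ := K' * (lp fp s0).re + K with hB
      have hAre : ∀ t : ℝ, s0 < t → t ≤ s0 + 1 / 4 → 2 * (A t).re ≤ B := by
        intro t ht1 ht2
        have hDt : D t = (((D t).re : ℝ) : ℂ) := by
          apply Complex.ext
          · rw [Complex.ofReal_re]
          · rw [Complex.ofReal_im]
            exact (hDre t (by linarith)).1
        have e1 : 2 * (A t).re = (D t).re * ((lp fp t).re - (lp fm t).re) + (H t).re := by
          have e2 : A t = (((1 / 2 : ℝ)) : ℂ) * ((((D t).re : ℝ) : ℂ) * (lp fp t - lp fm t) + H t) := by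
            rw [← hDt]
            simp only [hAdef]
            push_cast
            ring
          rw [e2, Complex.re_ofReal_mul, Complex.add_re, Complex.re_ofReal_mul, Complex.sub_re]
          ring
        have b1 := lp_re_mono cp p0 ht1.le (hp s0 hs0')
        have b2 := lp_re_mono cm m0 (le_refl t) (hgt t ht1)
        have b3 := hK t ⟨ht1.le, ht2⟩
        rw [Real.norm_eq_abs] at b3
        have b4 := (abs_le.1 b3).2
        have b5 : 0 ≤ (D t).re := (hDre t (by linarith)).2.le
        have b6 : (D t).re ≤ K' := (le_abs_self _).trans (hK' t ⟨ht1.le, ht2⟩)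
        have b7 : 0 ≤ (lp fp t).re := b1.1
        have b8 : (D t).re * ((lp fp t).re - (lp fm t).re) ≤ (D t).re * (lp fp t).re :=
          mul_le_mul_of_nonneg_left (by linarith [b2.1]) b5
        have b9 : (D t).re * (lp fp t).re ≤ K' * (lp fp s0).re :=
          mul_le_mul b6 b1.2 b7 (b5.trans b6)
        rw [e1, hB]
        linarith
      have hEA : ∀ z : ℂ, s0 < z.re → deriv E z = A z * E z := by
        intro z hz
        have h3 := hid z hz
        simp only [hAdef]
        linear_combination (-1 / 2 : ℂ) * h3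
      set φ : ℝ → ℝ := fun t => Complex.normSq (E t) * Real.exp (-(B * t)) with hφ
      have hEr : ∀ t : ℝ, HasDerivAt (fun t : ℝ => E t) (deriv E t) t := fun t =>
        ((hE t).hasDerivAt).comp_ofReal
      have hnsq : ∀ t : ℝ, HasDerivAt (fun t : ℝ => Complex.normSq (E t))
          (2 * ((E t).re * (deriv E t).re + (E t).im * (deriv E t).im)) t := by
        intro t
        have d1 : HasDerivAt (fun t : ℝ => (E t).re) (deriv E t).re t := by
          have := Complex.reCLM.hasFDerivAt.comp_hasDerivAt t (hEr t)
          exact this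
        have d2 : HasDerivAt (fun t : ℝ => (E t).im) (deriv E t).im t := by
          have := Complex.imCLM.hasFDerivAt.comp_hasDerivAt t (hEr t)
          exact this
        have d3 := (d1.mul d1).add (d2.mul d2)
        have e : (fun t : ℝ => Complex.normSq (E t)) = fun t : ℝ => (E t).re * (E t).re + (E t).im * (E t).im := by
          funext t
          rw [Complex.normSq_apply]
        rw [e]
        refine d3.congr_deriv ?_
        ring
      have hder : ∀ t : ℝ, HasDerivAt φ ((2 * ((E t).re * (deriv E t).re + (E t).im * (deriv E t).im)) *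
          Real.exp (-(B * t)) + Complex.normSq (E t) * (Real.exp (-(B * t)) * (-(B * 1)))) t := by
        intro t
        exact (hnsq t).mul ((((hasDerivAt_id t).const_mul B).neg).exp)
      have hφc : Continuous φ := continuous_iff_continuousAt.2 fun t => (hder t).continuousAt
      have hanti : AntitoneOn φ (Icc s0 (s0 + 1 / 4)) := by
        refine antitoneOn_of_deriv_nonpos (convex_Icc _ _) hφc.continuousOn
          (fun t _ => (hder t).differentiableAt.differentiableWithinAt) fun t ht => ?_
        rw [interior_Icc] at ht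
        rw [(hder t).deriv]
        have h3 := hEA (t : ℂ) (by rw [Complex.ofReal_re]; exact ht.1)
        have h4 := hAre t ht.1 ht.2.le
        rw [h3, Complex.mul_re, Complex.mul_im, Complex.normSq_apply]
        have h5 := Real.exp_pos (-(B * t))
        have e : 2 * ((E t).re * ((A t).re * (E t).re - (A t).im * (E t).im) +
            (E t).im * ((A t).re * (E t).im + (A t).im * (E t).re)) * Real.exp (-(B * t)) +
            ((E t).re * (E t).re + (E t).im * (E t).im) * (Real.exp (-(B * t)) * (-(B * 1))) =
            (2 * (A t).re - B) * (((E t).re * (E t).re + (E t).im * (E t).im) * Real.exp (-(B * t))) := by ring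
        rw [e]
        refine mul_nonpos_of_nonpos_of_nonneg (by linarith) (mul_nonneg ?_ h5.le)
        nlinarith [mul_self_nonneg (E t).re, mul_self_nonneg (E t).im]
      have h6 := hanti (left_mem_Icc.2 (by linarith)) (right_mem_Icc.2 (by linarith)) (by linarith)
      have h7 : 0 < φ (s0 + 1 / 4) := by
        rw [hφ]
        refine mul_pos ?_ (Real.exp_pos _)
        rw [Complex.normSq_pos]
        exact hnz _ (by rw [Complex.ofReal_re]; linarith)
      intro h8
      have h9 : φ s0 = 0 := by
        rw [hφ]
        simp only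
        rw [h8, map_zero, zero_mul]
      linarith
    -- the continuation
    have hEc : ∀ᶠ z in 𝓝 (s0 : ℂ), E z ≠ 0 := hE.continuous.continuousAt.eventually_ne hE1
    obtain ⟨ρ1, hρ1, hball⟩ := Metric.eventually_nhds_iff_ball.1 hEc
    set ρ : ℝ := min ρ1 (min s0 (1 / 4)) with hρ
    have hρ0 : 0 < ρ := lt_min hρ1 (lt_min hs0' (by norm_num))
    have hρa : ρ ≤ ρ1 := min_le_left _ _
    have hρb : ρ ≤ s0 := (min_le_right _ _).trans (min_le_left _ _)
    have hρc : ρ ≤ 1 / 4 := (min_le_right _ _).trans (min_le_right _ _)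
    have hin : ∀ z : ℂ, z ∈ Metric.ball ((s0 + ρ / 4 : ℝ) : ℂ) (3 * ρ / 4) →
        0 < z.re ∧ z.re < 1 ∧ E z ≠ 0 := by
      intro z hz
      rw [Metric.mem_ball, dist_eq_norm] at hz
      have h3 : ‖z - (s0 : ℂ)‖ < ρ := by
        have e : z - (s0 : ℂ) = (z - ((s0 + ρ / 4 : ℝ) : ℂ)) + ((ρ / 4 : ℝ) : ℂ) := by
          push_cast
          ring
        rw [e]
        refine (norm_add_le _ _).trans_lt ?_
        rw [Complex.norm_real, Real.norm_of_nonneg (by linarith)]
        linarith
      have h4 := (Complex.abs_re_le_norm (z - (s0 : ℂ))).trans_lt h3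
      rw [Complex.sub_re, Complex.ofReal_re, abs_lt] at h4
      refine ⟨by linarith [h4.1], by linarith [h4.2], hball z ?_⟩
      rw [Metric.mem_ball, dist_eq_norm]
      linarith
    set G : ℂ → ℂ := fun z => lp fp z - (2 * deriv E z - H z * E z) / (D z * E z) with hG
    have hsq : ∀ z : ℂ, 0 < z.re → z.re < 1 → D z ≠ 0 := fun z hz _ => hDne z hz
    have hGd : DifferentiableOn ℂ G (Metric.ball ((s0 + ρ / 4 : ℝ) : ℂ) (3 * ρ / 4)) := by
      intro z hz
      obtain ⟨h3, h4, h5⟩ := hin z hz
      have d1 := lp_diff cp hpa (z := z) h3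
      have d2 : DifferentiableAt ℂ (fun z => 2 * deriv E z - H z * E z) z :=
        ((hE.deriv z).const_mul 2).sub ((hH z h3).mul (hE z))
      have d3 : DifferentiableAt ℂ (fun z => D z * E z) z := (hD z).mul (hE z)
      exact (d1.sub (d2.div d3 (mul_ne_zero (hsq z h3 h4) h5))).differentiableWithinAt
    have hint : IntegrableOn (fun u => fm u * Real.exp (-((s0 + ρ / 8) * u))) (Ioi 0) := hgt _ (by linarith)
    have key := landau_lp cm m0 (c := s0 + ρ / 4) (c' := s0 + ρ / 8) (R := 3 * ρ / 4) (r := ρ / 2) (by linarith) hint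
      hGd (fun t ht1 ht2 => by
        have h3 : (t : ℂ) ∈ Metric.ball ((s0 + ρ / 4 : ℝ) : ℂ) (3 * ρ / 4) := by
          rw [Metric.mem_ball, dist_eq_norm, ← Complex.ofReal_sub, Complex.norm_real, Real.norm_eq_abs]
          exact ht2
        obtain ⟨h4, h5, h6⟩ := hin _ h3
        have h7 := hid (t : ℂ) (by rw [Complex.ofReal_re]; linarith)
        have h8 := hsq _ h4 h5
        simp only [hG]
        rw [← h7]
        field_simp
        ring) (by linarith) (by linarith)
    exact hlt (s0 - ρ / 4) (by linarith) (by
      have e : s0 + ρ / 4 - ρ / 2 = s0 - ρ / 4 := by ring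
      rw [e] at key
      exact key)
  exact nz 0 le_rfl main

end Pool.Agent.H80.EX
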